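import Pool.Agent.LAT.StmtsM

set_option autoImplicit false

/-! # Squad LAT, row MNK: the theorem of Minkowski for cubes -/

namespace Pool.Agent.LAT.H31

open Matrix MeasureTheory Module
open scoped MatrixOrder ENNReal

theorem factor (r : ℕ) (G : Matrix (Fin r) (Fin r) ℝ) (hG : G.PosDef) :
    ∃ R : Matrix (Fin r) (Fin r) ℝ, R.det ≠ 0 ∧ G = Rᵀ * R := by
  obtain ⟨R, hR⟩ := CStarAlgebra.nonneg_iff_eq_star_mul_self.mp hG.posSemidef.nonneg
  have h1 : star R = Rᵀ := by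
    rw [star_eq_conjTranspose, conjTranspose_eq_transpose_of_trivial]
  rw [h1] at hR
  refine ⟨R, ?_, hR⟩
  intro h0
  have h2 := hG.det_pos
  rw [hR, det_mul, h0, mul_zero] at h2
  exact lt_irrefl _ h2

theorem vol_fd (r : ℕ) : volume (ZSpan.fundamentalDomain (Pi.basisFun ℝ (Fin r))) = 1 := by
  rw [ZSpan.volume_fundamentalDomain]
  have h : (Matrix.of (Pi.basisFun ℝ (Fin r))) = (1 : Matrix (Fin r) (Fin r) ℝ) := by
    ext i j
    rw [Matrix.of_apply, Pi.basisFun_apply, Matrix.one_apply, Pi.single_apply]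
    by_cases h : i = j
    · rw [if_pos h, if_pos h.symm]
    · rw [if_neg h, if_neg fun h' => h h'.symm]
  rw [h, det_one, abs_one, ENNReal.ofReal_one]

theorem mnk : MnkStmt := by
  intro r G hr hG
  obtain ⟨R, hR0, hR⟩ := factor r G hG
  haveI : Nonempty (Fin r) := ⟨⟨0, hr⟩⟩
  obtain ⟨s, hs0, hs⟩ : ∃ s : ℝ, 0 < s ∧ s ^ r = |R.det| :=
    ⟨|R.det| ^ ((r : ℝ)⁻¹), Real.rpow_pos_of_pos (abs_pos.2 hR0) _,
      Real.rpow_inv_natCast_pow (abs_nonneg _) hr.ne'⟩
  obtain ⟨f, hf⟩ : ∃ f : (Fin r → ℝ) →ₗ[ℝ] (Fin r → ℝ), f = Matrix.toLin' R⁻¹ := ⟨_, rfl⟩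
  obtain ⟨Q, hQ⟩ : ∃ Q : Set (Fin r → ℝ), Q = Set.Icc (fun _ => -s) (fun _ => s) := ⟨_, rfl⟩
  have hfund := ZSpan.isAddFundamentalDomain' (Pi.basisFun ℝ (Fin r)) volume
  haveI : Countable (Submodule.span ℤ (Set.range (Pi.basisFun ℝ (Fin r)))).toAddSubgroup := by
    change Countable (Submodule.span ℤ (Set.range (Pi.basisFun ℝ (Fin r))))
    infer_instance
  have hcpt : IsCompact (f '' Q) := by
    rw [hQ]
    exact isCompact_Icc.image (LinearMap.continuous_of_finiteDimensional f)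
  have hconv : Convex ℝ (f '' Q) := by
    rw [hQ]
    exact (convex_Icc _ _).linear_image f
  have hsymm : ∀ x ∈ f '' Q, -x ∈ f '' Q := by
    rintro _ ⟨y, hy, rfl⟩
    refine ⟨-y, ?_, by rw [map_neg]⟩
    rw [hQ] at hy ⊢
    refine ⟨fun i => ?_, fun i => ?_⟩
    · have := hy.2 i
      show -s ≤ -(y i)
      exact neg_le_neg this
    · have := hy.1 i
      show -(y i) ≤ s
      have h1 : -s ≤ y i := this
      linarith
  have hdet : LinearMap.det f = (R.det)⁻¹ := by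
    rw [hf, LinearMap.det_toLin', Matrix.det_nonsing_inv, Ring.inverse_eq_inv']
  have hvol : volume (f '' Q) = (2 : ℝ≥0∞) ^ r := by
    rw [Measure.addHaar_image_linearMap, hQ, Real.volume_Icc_pi, hdet]
    simp only [sub_neg_eq_add, Finset.prod_const, Finset.card_univ, Fintype.card_fin]
    rw [← ENNReal.ofReal_pow (by linarith), ← ENNReal.ofReal_mul (abs_nonneg _)]
    have h1 : |(R.det)⁻¹| * (s + s) ^ r = 2 ^ r := by
      rw [← two_mul, mul_pow, hs, abs_inv]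
      have h2 : |R.det| ≠ 0 := abs_ne_zero.2 hR0
      field_simp
    rw [h1, ENNReal.ofReal_pow (by norm_num)]
    norm_num
  have hle : volume (ZSpan.fundamentalDomain (Pi.basisFun ℝ (Fin r))) *
      2 ^ finrank ℝ (Fin r → ℝ) ≤ volume (f '' Q) := by
    rw [vol_fd, one_mul, hvol, Module.finrank_fin_fun]
  obtain ⟨⟨x, hx⟩, hnz, hmem⟩ := exists_ne_zero_mem_lattice_of_measure_mul_two_pow_le_measure
    hfund hsymm hconv hcpt hle
  obtain ⟨y, hy, hyx⟩ := hmem
  have hx1 : x ∈ Submodule.span ℤ (Set.range (Pi.basisFun ℝ (Fin r))) := hx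
  rw [Basis.mem_span_iff_repr_mem] at hx1
  choose z hz using hx1
  have hzx : (fun i => (z i : ℝ)) = x := by
    funext i
    have h1 := hz i
    rw [Pi.basisFun_repr] at h1
    exact h1
  refine ⟨z, ?_, ?_⟩
  · intro h0
    apply hnz
    apply Subtype.ext
    show x = 0
    rw [← hzx, h0]
    funext i
    simp
  · have hRx : R *ᵥ x = y := by
      have h1 : f y = x := hyx
      rw [← h1, hf, Matrix.toLin'_apply, Matrix.mulVec_mulVec, Matrix.mul_nonsing_inv _
        (isUnit_iff_ne_zero.2 hR0), Matrix.one_mulVec]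
    have hq : ((fun i => (z i : ℝ)) ⬝ᵥ (G *ᵥ fun i => (z i : ℝ))) = ∑ i, y i ^ 2 := by
      rw [hzx, hR, ← Matrix.mulVec_mulVec, hRx, Matrix.dotProduct_mulVec, Matrix.vecMul_transpose,
        hRx]
      exact Finset.sum_congr rfl fun i _ => (sq _).symm
    have hy1 : ∀ i, y i ^ 2 ≤ s ^ 2 := by
      intro i
      rw [hQ] at hy
      exact sq_le_sq' (hy.1 i) (hy.2 i)
    have hle2 : ∑ i, y i ^ 2 ≤ r * s ^ 2 := by
      refine (Finset.sum_le_sum fun i _ => hy1 i).trans ?_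
      rw [Finset.sum_const, Finset.card_univ, Fintype.card_fin, nsmul_eq_mul]
    have h0 : (0 : ℝ) ≤ ∑ i, y i ^ 2 := Finset.sum_nonneg fun i _ => sq_nonneg _
    rw [hq]
    refine (pow_le_pow_left₀ h0 hle2 r).trans (le_of_eq ?_)
    rw [mul_pow, hR, det_mul, det_transpose, ← pow_mul, mul_comm 2 r, pow_mul, hs, sq_abs, sq]

end Pool.Agent.LAT.H31
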